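import Mathlib

/-!
# The Rogers-Ramanujan continued fraction, its modified approximants, general convergence
-/

set_option autoImplicit false

namespace Pool.Agent.Y906.RG

open Filter Topology

/-- The point `(a : b)` of the Riemann sphere: the quotient `a / b`, or `∞` when `b = 0`. -/
noncomputable def ratio (a b : ℂ) : OnePoint ℂ :=
  if b = 0 then OnePoint.infty else ((a / b : ℂ) : OnePoint ℂ)

/-- The chordal distance on the Riemann sphere. -/
noncomputable def chord (z w : OnePoint ℂ) : ℝ :=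
  z.elim (w.elim 0 (fun b => 2 / Real.sqrt (1 + ‖b‖ ^ 2)))
    (fun a => w.elim (2 / Real.sqrt (1 + ‖a‖ ^ 2))
      (fun b => 2 * ‖a - b‖ / (Real.sqrt (1 + ‖a‖ ^ 2) * Real.sqrt (1 + ‖b‖ ^ 2))))

/-- Numerators: `A_0 = 1`, `A_1 = 1 + x`, `A_n = A_{n-1} + x^n A_{n-2}`. -/
noncomputable def numA (x : ℂ) : ℕ → ℂ
  | 0 => 1
  | 1 => 1 + x
  | (n + 2) => numA x (n + 1) + x ^ (n + 2) * numA x n

/-- Denominators: `B_0 = 1`, `B_1 = 1`, `B_n = B_{n-1} + x^n B_{n-2}`. -/
noncomputable def denB (x : ℂ) : ℕ → ℂ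
  | 0 => 1
  | 1 => 1
  | (n + 2) => denB x (n + 1) + x ^ (n + 2) * denB x n

/-- The approximant `K_n(x) = A_n / B_n` in the Riemann sphere. -/
noncomputable def approx (x : ℂ) (n : ℕ) : OnePoint ℂ := ratio (numA x n) (denB x n)

/-- Convergence of the Rogers-Ramanujan continued fraction (classical sense). -/
def Converges (x : ℂ) : Prop :=
  ∃ L : OnePoint ℂ, Tendsto (approx x) atTop (𝓝 L)

/-- The modified approximant
`S_{n+1}(w) = 1 + x / (1 + x^2 / (1 + ... + x^(n+1) / (1 + w)))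
  = (A_{n+1} + w A_n) / (B_{n+1} + w B_n)`, with `S_{n+1}(∞) = A_n / B_n`. -/
noncomputable def modApprox (x : ℂ) (n : ℕ) (w : OnePoint ℂ) : OnePoint ℂ :=
  w.elim (ratio (numA x n) (denB x n))
    (fun w => ratio (numA x (n + 1) + w * numA x n) (denB x (n + 1) + w * denB x n))

/-- General convergence (Jacobsen 1986): two sequences `v_n`, `w_n` in the Riemann sphere whose
chordal distance stays away from zero and for which `S_n(v_n)` and `S_n(w_n)` have the same
limit. -/
def GenConverges (x : ℂ) : Prop :=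
  ∃ (L : OnePoint ℂ) (v w : ℕ → OnePoint ℂ),
    Tendsto (fun n => modApprox x n (v n)) atTop (𝓝 L) ∧
    Tendsto (fun n => modApprox x n (w n)) atTop (𝓝 L) ∧
    ∃ c : ℝ, 0 < c ∧ ∀ᶠ n in atTop, c ≤ chord (v n) (w n)

end Pool.Agent.Y906.RG
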