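import Mathlib
import Pool.Agent.Y906.RG.Def

/-!
# The Riemann sphere in homogeneous coordinates and the chordal distance
-/

set_option autoImplicit false

namespace Pool.Agent.Y906.RG

open Filter Topology

/-- Euclidean norm in homogeneous coordinates -/
noncomputable def hn (a b : ℂ) : ℝ := Real.sqrt (‖a‖ ^ 2 + ‖b‖ ^ 2)

theorem chord_inf_inf : chord OnePoint.infty OnePoint.infty = 0 := rfl

theorem chord_inf_coe (b : ℂ) : chord OnePoint.infty (b : OnePoint ℂ) = 2 / Real.sqrt (1 + ‖b‖ ^ 2) := rfl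

theorem chord_coe_inf (a : ℂ) : chord (a : OnePoint ℂ) OnePoint.infty = 2 / Real.sqrt (1 + ‖a‖ ^ 2) := rfl

theorem chord_coe_coe (a b : ℂ) : chord (a : OnePoint ℂ) (b : OnePoint ℂ) =
    2 * ‖a - b‖ / (Real.sqrt (1 + ‖a‖ ^ 2) * Real.sqrt (1 + ‖b‖ ^ 2)) := rfl

theorem hn_pos (a b : ℂ) (h : a ≠ 0 ∨ b ≠ 0) : 0 < hn a b := by
  unfold hn
  apply Real.sqrt_pos.2
  rcases h with h | h
  · have := norm_pos_iff.2 h
    positivity
  · have := norm_pos_iff.2 h
    positivity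

theorem hn_smul (t a b : ℂ) : hn (t * a) (t * b) = ‖t‖ * hn a b := by
  unfold hn
  rw [norm_mul, norm_mul]
  have : (‖t‖ * ‖a‖) ^ 2 + (‖t‖ * ‖b‖) ^ 2 = ‖t‖ ^ 2 * (‖a‖ ^ 2 + ‖b‖ ^ 2) := by ring
  rw [this, Real.sqrt_mul (by positivity), Real.sqrt_sq (norm_nonneg _)]

theorem norm_le_hn_left (a b : ℂ) : ‖a‖ ≤ hn a b := by
  unfold hn
  apply Real.le_sqrt_of_sq_le
  nlinarith [sq_nonneg ‖b‖]

theorem norm_le_hn_right (a b : ℂ) : ‖b‖ ≤ hn a b := by
  unfold hn
  apply Real.le_sqrt_of_sq_le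
  nlinarith [sq_nonneg ‖a‖]

theorem hn_le (a b : ℂ) (C : ℝ) (hC : 0 ≤ C) (ha : ‖a‖ ≤ C) (hb : ‖b‖ ≤ C) : hn a b ≤ 2 * C := by
  unfold hn
  apply Real.sqrt_le_iff.2
  constructor
  · positivity
  · nlinarith [norm_nonneg a, norm_nonneg b]

theorem hn_one (a : ℂ) : hn a 1 = Real.sqrt (1 + ‖a‖ ^ 2) := by
  unfold hn
  rw [norm_one, one_pow, add_comm]

theorem ratio_smul (t a b : ℂ) (ht : t ≠ 0) : ratio (t * a) (t * b) = ratio a b := by
  unfold ratio
  by_cases hb : b = 0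
  · rw [if_pos hb, if_pos (by rw [hb, mul_zero])]
  · rw [if_neg hb, if_neg (mul_ne_zero ht hb), mul_div_mul_left _ _ ht]

theorem ratio_inf (a : ℂ) : ratio a 0 = OnePoint.infty := by
  unfold ratio; rw [if_pos rfl]

theorem ratio_one (a : ℂ) : ratio a 1 = (a : OnePoint ℂ) := by
  unfold ratio; rw [if_neg one_ne_zero, div_one]

theorem exists_rep (z : OnePoint ℂ) : ∃ a b : ℂ, (a ≠ 0 ∨ b ≠ 0) ∧ z = ratio a b := by
  induction z using OnePoint.rec with
  | infty => exact ⟨1, 0, Or.inl one_ne_zero, (ratio_inf 1).symm⟩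
  | coe w => exact ⟨w, 1, Or.inr one_ne_zero, (ratio_one w).symm⟩

theorem chord_symm (z w : OnePoint ℂ) : chord z w = chord w z := by
  induction z using OnePoint.rec with
  | infty =>
    induction w using OnePoint.rec with
    | infty => rfl
    | coe w => rfl
  | coe z =>
    induction w using OnePoint.rec with
    | infty => rfl
    | coe w =>
      rw [chord_coe_coe, chord_coe_coe, norm_sub_rev, mul_comm (Real.sqrt (1 + ‖z‖ ^ 2))]

theorem chord_ratio_inf (a b c : ℂ) (hb : b ≠ 0) (hc : c ≠ 0) :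
    chord (ratio a b) (ratio c 0) = 2 * ‖a * 0 - b * c‖ / (hn a b * hn c 0) := by
  have h1 : ratio a b = ((a / b : ℂ) : OnePoint ℂ) := by unfold ratio; rw [if_neg hb]
  rw [h1, ratio_inf, chord_coe_inf]
  have h2 : hn a b = ‖b‖ * Real.sqrt (1 + ‖a / b‖ ^ 2) := by
    rw [← hn_one, ← hn_smul, mul_one]
    congr 1
    field_simp
  have h3 : hn c 0 = ‖c‖ := by
    unfold hn
    rw [norm_zero]
    simp [Real.sqrt_sq (norm_nonneg c)]
  rw [h2, h3, mul_zero, zero_sub, norm_neg, norm_mul]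
  have hb' : ‖b‖ ≠ 0 := norm_ne_zero_iff.2 hb
  have hc' : ‖c‖ ≠ 0 := norm_ne_zero_iff.2 hc
  have hs : Real.sqrt (1 + ‖a / b‖ ^ 2) ≠ 0 := by positivity
  field_simp

/-- The chordal distance in homogeneous coordinates. -/
theorem chord_ratio (a b c d : ℂ) (h1 : a ≠ 0 ∨ b ≠ 0) (h2 : c ≠ 0 ∨ d ≠ 0) :
    chord (ratio a b) (ratio c d) = 2 * ‖a * d - b * c‖ / (hn a b * hn c d) := by
  by_cases hb : b = 0
  · subst hb
    have ha : a ≠ 0 := by simpa using h1
    by_cases hd : d = 0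
    · subst hd
      rw [ratio_inf, ratio_inf, chord_inf_inf]
      simp
    · rw [chord_symm, chord_ratio_inf c d a hd ha, mul_comm (hn a 0)]
      congr 2
      rw [← norm_neg]
      congr 1
      ring
  · by_cases hd : d = 0
    · subst hd
      have hc : c ≠ 0 := by simpa using h2
      exact chord_ratio_inf a b c hb hc
    · have e1 : ratio a b = ((a / b : ℂ) : OnePoint ℂ) := by unfold ratio; rw [if_neg hb]
      have e2 : ratio c d = ((c / d : ℂ) : OnePoint ℂ) := by unfold ratio; rw [if_neg hd]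
      rw [e1, e2, chord_coe_coe]
      have h3 : hn a b = ‖b‖ * Real.sqrt (1 + ‖a / b‖ ^ 2) := by
        rw [← hn_one, ← hn_smul, mul_one]
        congr 1
        field_simp
      have h4 : hn c d = ‖d‖ * Real.sqrt (1 + ‖c / d‖ ^ 2) := by
        rw [← hn_one, ← hn_smul, mul_one]
        congr 1
        field_simp
      have h5 : a * d - b * c = b * d * (a / b - c / d) := by field_simp
      rw [h3, h4, h5, norm_mul, norm_mul]
      have hb' : ‖b‖ ≠ 0 := norm_ne_zero_iff.2 hb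
      have hd' : ‖d‖ ≠ 0 := norm_ne_zero_iff.2 hd
      have hs : Real.sqrt (1 + ‖a / b‖ ^ 2) ≠ 0 := by positivity
      have hs' : Real.sqrt (1 + ‖c / d‖ ^ 2) ≠ 0 := by positivity
      field_simp

theorem ratio_eq_of_det (a b c d : ℂ) (h1 : a ≠ 0 ∨ b ≠ 0) (h2 : c ≠ 0 ∨ d ≠ 0)
    (h : a * d - b * c = 0) : ratio a b = ratio c d := by
  unfold ratio
  by_cases hb : b = 0
  · subst hb
    have ha : a ≠ 0 := by simpa using h1
    have hd : d = 0 := by
      have : a * d = 0 := by linear_combination h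
      exact (mul_eq_zero.1 this).resolve_left ha
    rw [if_pos rfl, if_pos hd]
  · by_cases hd : d = 0
    · exfalso
      subst hd
      have hc : c ≠ 0 := by simpa using h2
      have : b * c = 0 := by linear_combination -h
      exact (mul_ne_zero hb hc) this
    · rw [if_neg hb, if_neg hd]
      congr 1
      field_simp
      linear_combination h

/-! ### Topology -/

theorem nhds_inf_large (R : ℝ) : ∀ᶠ z in 𝓝 (OnePoint.infty : OnePoint ℂ),
    z = OnePoint.infty ∨ ∃ w : ℂ, z = (w : OnePoint ℂ) ∧ R < ‖w‖ := by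
  have hopen : IsOpen (((fun z : ℂ => (z : OnePoint ℂ)) '' Metric.closedBall 0 R)ᶜ) :=
    OnePoint.isOpen_compl_image_coe.2 ⟨Metric.isClosed_closedBall, isCompact_closedBall 0 R⟩
  have hmem : (OnePoint.infty : OnePoint ℂ) ∈ ((fun z : ℂ => (z : OnePoint ℂ)) '' Metric.closedBall 0 R)ᶜ := by
    rintro ⟨z, _, hz⟩
    exact OnePoint.coe_ne_infty z hz
  filter_upwards [hopen.mem_nhds hmem] with z hz
  induction z using OnePoint.rec with
  | infty => exact Or.inl rfl
  | coe w =>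
    refine Or.inr ⟨w, rfl, ?_⟩
    by_contra h
    push Not at h
    exact hz ⟨w, by simpa using h, rfl⟩

theorem nhds_coe_close (l : ℂ) (ε : ℝ) (hε : 0 < ε) : ∀ᶠ z in 𝓝 (l : OnePoint ℂ),
    ∃ w : ℂ, z = (w : OnePoint ℂ) ∧ ‖w - l‖ < ε := by
  have hopen : IsOpen ((fun z : ℂ => (z : OnePoint ℂ)) '' Metric.ball l ε) :=
    OnePoint.isOpenEmbedding_coe.isOpenMap _ Metric.isOpen_ball
  filter_upwards [hopen.mem_nhds ⟨l, Metric.mem_ball_self hε, rfl⟩] with z hz
  obtain ⟨w, hw, rfl⟩ := hz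
  exact ⟨w, rfl, by rwa [Metric.mem_ball, dist_eq_norm] at hw⟩

theorem one_le_sq (a : ℂ) : 1 ≤ Real.sqrt (1 + ‖a‖ ^ 2) := by
  apply Real.le_sqrt_of_sq_le
  nlinarith [sq_nonneg ‖a‖]

theorem norm_le_sq (a : ℂ) : ‖a‖ ≤ Real.sqrt (1 + ‖a‖ ^ 2) := by
  apply Real.le_sqrt_of_sq_le
  nlinarith [sq_nonneg ‖a‖]

/-- Two sequences with the same limit get close in the chordal distance. -/
theorem chord_small {ι : Type*} {F : Filter ι} (z w : ι → OnePoint ℂ) (L : OnePoint ℂ)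
    (hz : Tendsto z F (𝓝 L)) (hw : Tendsto w F (𝓝 L)) (ε : ℝ) (hε : 0 < ε) :
    ∀ᶠ n in F, chord (z n) (w n) < ε := by
  induction L using OnePoint.rec with
  | infty =>
    filter_upwards [hz.eventually (nhds_inf_large (8 / ε)), hw.eventually (nhds_inf_large (8 / ε))]
      with n h1 h2
    have hR : (0 : ℝ) < 8 / ε := by positivity
    have key : ∀ a : ℂ, 8 / ε < ‖a‖ → 2 / Real.sqrt (1 + ‖a‖ ^ 2) < ε := by
      intro a ha
      have h3 := norm_le_sq a
      have h4 : 0 < Real.sqrt (1 + ‖a‖ ^ 2) := lt_of_lt_of_le (hR.trans ha) h3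
      rw [div_lt_iff₀ h4]
      have h5 : 8 / ε < Real.sqrt (1 + ‖a‖ ^ 2) := ha.trans_le h3
      rw [div_lt_iff₀ hε] at h5
      nlinarith
    rcases h1 with h1 | ⟨a, h1, ha⟩
    · rcases h2 with h2 | ⟨b, h2, hb⟩
      · rw [h1, h2, chord_inf_inf]; exact hε
      · rw [h1, h2, chord_inf_coe]; exact key b hb
    · rcases h2 with h2 | ⟨b, h2, hb⟩
      · rw [h1, h2, chord_coe_inf]; exact key a ha
      · rw [h1, h2, chord_coe_coe]
        have h3 := norm_le_sq a
        have h4 := norm_le_sq b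
        have ha0 : 0 < ‖a‖ := hR.trans ha
        have hb0 : 0 < ‖b‖ := hR.trans hb
        have h5 : ‖a‖ * ‖b‖ ≤ Real.sqrt (1 + ‖a‖ ^ 2) * Real.sqrt (1 + ‖b‖ ^ 2) :=
          mul_le_mul h3 h4 (norm_nonneg _) (Real.sqrt_nonneg _)
        have h6 : 0 < ‖a‖ * ‖b‖ := mul_pos ha0 hb0
        rw [div_lt_iff₀ (lt_of_lt_of_le h6 h5)]
        have h7 : ‖a - b‖ ≤ ‖a‖ + ‖b‖ := norm_sub_le a b
        have ha' : 8 < ‖a‖ * ε := by rwa [div_lt_iff₀ hε] at ha
        have hb' : 8 < ‖b‖ * ε := by rwa [div_lt_iff₀ hε] at hb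
        have h8 : 2 * (‖a‖ + ‖b‖) < ε * (‖a‖ * ‖b‖) := by nlinarith
        calc 2 * ‖a - b‖ ≤ 2 * (‖a‖ + ‖b‖) := by linarith
          _ < ε * (‖a‖ * ‖b‖) := h8
          _ ≤ _ := mul_le_mul_of_nonneg_left h5 hε.le
  | coe l =>
    filter_upwards [hz.eventually (nhds_coe_close l (ε / 8) (by positivity)),
      hw.eventually (nhds_coe_close l (ε / 8) (by positivity))] with n h1 h2
    obtain ⟨a, h1, ha⟩ := h1
    obtain ⟨b, h2, hb⟩ := h2
    rw [h1, h2, chord_coe_coe]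
    have h3 := one_le_sq a
    have h4 := one_le_sq b
    have h5 : 1 ≤ Real.sqrt (1 + ‖a‖ ^ 2) * Real.sqrt (1 + ‖b‖ ^ 2) := by nlinarith
    rw [div_lt_iff₀ (by linarith)]
    have h6 : ‖a - b‖ < ε / 4 := by
      have : a - b = (a - l) - (b - l) := by ring
      rw [this]
      have := norm_sub_le (a - l) (b - l)
      linarith
    nlinarith [norm_nonneg (a - b)]

/-- `(a_n : b_n) → (a : b)` when `a_n → a`, `b_n → b`, `(a, b) ≠ 0`. -/
theorem tendsto_ratio {ι : Type*} {F : Filter ι} (u v : ι → ℂ) (a b : ℂ) (h : a ≠ 0 ∨ b ≠ 0)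
    (hu : Tendsto u F (𝓝 a)) (hv : Tendsto v F (𝓝 b)) :
    Tendsto (fun n => ratio (u n) (v n)) F (𝓝 (ratio a b)) := by
  by_cases hb : b = 0
  · subst hb
    have ha : a ≠ 0 := by simpa using h
    rw [ratio_inf]
    rw [OnePoint.nhds_infty_eq, tendsto_def]
    intro s hs
    rw [mem_sup, mem_pure, mem_map, coclosedCompact_eq_cocompact] at hs
    obtain ⟨hs2, hs1⟩ := hs
    rw [Metric.mem_cocompact_iff_closedBall_compl_subset (0 : ℂ)] at hs2
    obtain ⟨R, hR⟩ := hs2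
    have h1 : ∀ᶠ n in F, ‖a‖ / 2 < ‖u n‖ :=
      (hu.norm).eventually_const_lt (by have := norm_pos_iff.2 ha; linarith)
    have hapos := norm_pos_iff.2 ha
    have h2 : ∀ᶠ n in F, ‖v n‖ < ‖a‖ / (2 * (|R| + 1)) := by
      apply (hv.norm).eventually_lt_const
      rw [norm_zero]; positivity
    filter_upwards [h1, h2] with n h1 h2
    show ratio (u n) (v n) ∈ s
    unfold ratio
    split_ifs with h0
    · exact hs1
    · apply hR
      rw [Set.mem_compl_iff, Metric.mem_closedBall, dist_zero_right, norm_div, not_le]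
      have hv0 : 0 < ‖v n‖ := norm_pos_iff.2 h0
      rw [lt_div_iff₀ hv0]
      rw [lt_div_iff₀ (by positivity)] at h2
      nlinarith [le_abs_self R, abs_nonneg R]
  · have hev : ∀ᶠ n in F, v n ≠ 0 := hv.eventually_ne hb
    have h1 : Tendsto (fun n => u n / v n) F (𝓝 (a / b)) := hu.div hv hb
    have h2 := (OnePoint.continuous_coe.tendsto (a / b)).comp h1
    have e1 : ratio a b = ((a / b : ℂ) : OnePoint ℂ) := by unfold ratio; rw [if_neg hb]
    rw [e1]
    refine h2.congr' ?_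
    filter_upwards [hev] with n hn
    unfold ratio
    rw [if_neg hn]
    rfl

end Pool.Agent.Y906.RG
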