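import Mathlib
import Pool.Agent.Y906.RG.Sphere

/-!
# The Rogers-Ramanujan continued fraction and general convergence
-/

set_option autoImplicit false

namespace Pool.Agent.Y906.RG

open Filter Topology

theorem numA_two (x : ℂ) (n : ℕ) : numA x (n + 2) = numA x (n + 1) + x ^ (n + 2) * numA x n := rfl

theorem denB_two (x : ℂ) (n : ℕ) : denB x (n + 2) = denB x (n + 1) + x ^ (n + 2) * denB x n := rfl

theorem modApprox_ratio (x : ℂ) (n : ℕ) (a b : ℂ) (h : a ≠ 0 ∨ b ≠ 0) :
    modApprox x n (ratio a b)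
      = ratio (b * numA x (n + 1) + a * numA x n) (b * denB x (n + 1) + a * denB x n) := by
  by_cases hb : b = 0
  · subst hb
    have ha : a ≠ 0 := by simpa using h
    rw [ratio_inf]
    show ratio (numA x n) (denB x n) = _
    rw [← ratio_smul a _ _ ha]
    congr 1 <;> ring
  · have e1 : ratio a b = ((a / b : ℂ) : OnePoint ℂ) := by unfold ratio; rw [if_neg hb]
    rw [e1]
    show ratio (numA x (n + 1) + a / b * numA x n) (denB x (n + 1) + a / b * denB x n) = _
    rw [← ratio_smul b _ _ hb]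
    congr 1 <;> field_simp

/-- the first modified approximant is `1 + x / (1 + w)` -/
theorem modApprox_zero (x w : ℂ) (h : 1 + w ≠ 0) :
    modApprox x 0 (w : OnePoint ℂ) = ((1 + x / (1 + w) : ℂ) : OnePoint ℂ) := by
  show ratio (1 + x + w * 1) (1 + w * 1) = _
  unfold ratio
  rw [mul_one, if_neg h]
  congr 1
  field_simp
  ring

/-- `S_{n+1}(w) = S_n(x^(n+1) / (1 + w))` -/
theorem modApprox_succ (x w : ℂ) (n : ℕ) (h : 1 + w ≠ 0) :
    modApprox x (n + 1) (w : OnePoint ℂ) = modApprox x n ((x ^ (n + 2) / (1 + w) : ℂ) : OnePoint ℂ) := by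
  have e1 : ((x ^ (n + 2) / (1 + w) : ℂ) : OnePoint ℂ) = ratio (x ^ (n + 2)) (1 + w) := by
    unfold ratio; rw [if_neg h]
  rw [e1, modApprox_ratio x n _ _ (Or.inr h)]
  show ratio (numA x (n + 2) + w * numA x (n + 1)) (denB x (n + 2) + w * denB x (n + 1)) = _
  rw [numA_two, denB_two]
  congr 1 <;> ring

theorem det_rec (x : ℂ) (n : ℕ) :
    numA x (n + 2) * denB x (n + 1) - numA x (n + 1) * denB x (n + 2)
      = -(x ^ (n + 2)) * (numA x (n + 1) * denB x n - numA x n * denB x (n + 1)) := by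
  rw [numA_two, denB_two]; ring

theorem det_ne (x : ℂ) (hx : x ≠ 0) (n : ℕ) :
    numA x (n + 1) * denB x n - numA x n * denB x (n + 1) ≠ 0 := by
  induction n with
  | zero =>
    show (1 + x) * 1 - 1 * 1 ≠ 0
    have : (1 + x) * 1 - 1 * 1 = x := by ring
    rw [this]; exact hx
  | succ n ih =>
    rw [det_rec]
    exact mul_ne_zero (neg_ne_zero.2 (pow_ne_zero _ hx)) ih

theorem det_norm (x : ℂ) (hx : ‖x‖ = 1) (n : ℕ) :
    ‖numA x (n + 1) * denB x n - numA x n * denB x (n + 1)‖ = 1 := by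
  induction n with
  | zero =>
    show ‖(1 + x) * 1 - 1 * 1‖ = 1
    have : (1 + x) * 1 - 1 * 1 = x := by ring
    rw [this, hx]
  | succ n ih =>
    rw [det_rec, norm_mul, norm_neg, norm_pow, hx, ih]
    simp

/-- classical convergence implies general convergence -/
theorem Converges.gen (x : ℂ) (h : Converges x) : GenConverges x := by
  obtain ⟨L, hL⟩ := h
  refine ⟨L, fun _ => OnePoint.infty, fun _ => ((0 : ℂ) : OnePoint ℂ), ?_, ?_, 2, by norm_num, ?_⟩
  · exact hL
  · have h1 := hL.comp (tendsto_add_atTop_nat 1)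
    refine h1.congr ?_
    intro n
    show ratio (numA x (n + 1)) (denB x (n + 1)) = ratio (numA x (n + 1) + 0 * numA x n) (denB x (n + 1) + 0 * denB x n)
    simp
  · refine Eventually.of_forall fun n => ?_
    rw [chord_inf_coe]
    simp

theorem vec_ne (x : ℂ) (hx : x ≠ 0) (n : ℕ) (a b : ℂ) (h : a ≠ 0 ∨ b ≠ 0) :
    b * numA x (n + 1) + a * numA x n ≠ 0 ∨ b * denB x (n + 1) + a * denB x n ≠ 0 := by
  by_contra hcon
  push Not at hcon
  obtain ⟨h1, h2⟩ := hcon
  have hD := det_ne x hx n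
  have e1 : b * (numA x (n + 1) * denB x n - numA x n * denB x (n + 1)) = 0 := by
    linear_combination denB x n * h1 - numA x n * h2
  have e2 : a * (numA x (n + 1) * denB x n - numA x n * denB x (n + 1)) = 0 := by
    linear_combination -denB x (n + 1) * h1 + numA x (n + 1) * h2
  have hb := (mul_eq_zero.1 e1).resolve_right hD
  have ha := (mul_eq_zero.1 e2).resolve_right hD
  rcases h with h | h
  · exact h ha
  · exact h hb

theorem hn_image_le (C : ℝ) (hC : 0 ≤ C) (a b p q r s : ℂ) (hp : ‖p‖ ≤ C) (hq : ‖q‖ ≤ C)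
    (hr : ‖r‖ ≤ C) (hs : ‖s‖ ≤ C) : hn (b * p + a * q) (b * r + a * s) ≤ 4 * C * hn a b := by
  have h0 : 0 ≤ hn a b := Real.sqrt_nonneg _
  have ha := norm_le_hn_left a b
  have hb := norm_le_hn_right a b
  have key : ∀ u v : ℂ, ‖u‖ ≤ C → ‖v‖ ≤ C → ‖b * u + a * v‖ ≤ 2 * C * hn a b := by
    intro u v hu hv
    have h1 := norm_add_le (b * u) (a * v)
    rw [norm_mul, norm_mul] at h1
    have h2 : ‖b‖ * ‖u‖ ≤ hn a b * C := mul_le_mul hb hu (norm_nonneg _) h0
    have h3 : ‖a‖ * ‖v‖ ≤ hn a b * C := mul_le_mul ha hv (norm_nonneg _) h0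
    linarith
  have h4 := hn_le _ _ (2 * C * hn a b) (by positivity) (key p q hp hq) (key r s hr hs)
  linarith

/-- Bounded matrices do not contract the chordal distance much. -/
theorem chord_mod_ge (x : ℂ) (hx : ‖x‖ = 1) (C : ℝ) (hC : 1 ≤ C) (n : ℕ)
    (a0 : ‖numA x n‖ ≤ C) (a1 : ‖numA x (n + 1)‖ ≤ C) (b0 : ‖denB x n‖ ≤ C)
    (b1 : ‖denB x (n + 1)‖ ≤ C) (v w : OnePoint ℂ) :
    chord v w / (16 * C ^ 2) ≤ chord (modApprox x n v) (modApprox x n w) := by
  have hx0 : x ≠ 0 := by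
    intro h; rw [h, norm_zero] at hx; exact zero_ne_one hx
  obtain ⟨a, b, hab, rfl⟩ := exists_rep v
  obtain ⟨c, d, hcd, rfl⟩ := exists_rep w
  rw [modApprox_ratio x n a b hab, modApprox_ratio x n c d hcd,
    chord_ratio _ _ _ _ (vec_ne x hx0 n a b hab) (vec_ne x hx0 n c d hcd),
    chord_ratio _ _ _ _ hab hcd]
  have hdet := det_norm x hx n
  have e1 : (b * numA x (n + 1) + a * numA x n) * (d * denB x (n + 1) + c * denB x n)
      - (b * denB x (n + 1) + a * denB x n) * (d * numA x (n + 1) + c * numA x n)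
      = -((a * d - b * c) * (numA x (n + 1) * denB x n - numA x n * denB x (n + 1))) := by ring
  rw [e1, norm_neg, norm_mul, hdet, mul_one]
  have h1 := hn_image_le C (by linarith) a b _ _ _ _ a1 a0 b1 b0
  have h2 := hn_image_le C (by linarith) c d _ _ _ _ a1 a0 b1 b0
  have p1 := hn_pos _ _ (vec_ne x hx0 n a b hab)
  have p2 := hn_pos _ _ (vec_ne x hx0 n c d hcd)
  have p3 := hn_pos a b hab
  have p4 := hn_pos c d hcd
  rw [div_div]
  apply div_le_div_of_nonneg_left (by positivity) (by positivity)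
  calc _ ≤ (4 * C * hn a b) * (4 * C * hn c d) := mul_le_mul h1 h2 p2.le (by positivity)
    _ = hn a b * hn c d * (16 * C ^ 2) := by ring

/-- Bounded matrices do not expand the chordal distance much. -/
theorem chord_mod_le (x : ℂ) (hx : ‖x‖ = 1) (C : ℝ) (hC : 1 ≤ C) (n : ℕ)
    (a0 : ‖numA x n‖ ≤ C) (a1 : ‖numA x (n + 1)‖ ≤ C) (b0 : ‖denB x n‖ ≤ C)
    (b1 : ‖denB x (n + 1)‖ ≤ C) (v w : OnePoint ℂ) :
    chord (modApprox x n v) (modApprox x n w) ≤ 16 * C ^ 2 * chord v w := by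
  have hx0 : x ≠ 0 := by
    intro h; rw [h, norm_zero] at hx; exact zero_ne_one hx
  obtain ⟨a, b, hab, rfl⟩ := exists_rep v
  obtain ⟨c, d, hcd, rfl⟩ := exists_rep w
  rw [modApprox_ratio x n a b hab, modApprox_ratio x n c d hcd,
    chord_ratio _ _ _ _ (vec_ne x hx0 n a b hab) (vec_ne x hx0 n c d hcd),
    chord_ratio _ _ _ _ hab hcd]
  have hdet := det_norm x hx n
  have e1 : (b * numA x (n + 1) + a * numA x n) * (d * denB x (n + 1) + c * denB x n)
      - (b * denB x (n + 1) + a * denB x n) * (d * numA x (n + 1) + c * numA x n)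
      = -((a * d - b * c) * (numA x (n + 1) * denB x n - numA x n * denB x (n + 1))) := by ring
  rw [e1, norm_neg, norm_mul, hdet, mul_one]
  have key : ∀ s t : ℂ, hn s t ≤ 4 * C * hn (t * numA x (n + 1) + s * numA x n) (t * denB x (n + 1) + s * denB x n) := by
    intro s t
    set D := numA x (n + 1) * denB x n - numA x n * denB x (n + 1) with hD
    have h1 := hn_image_le C (by linarith) (t * numA x (n + 1) + s * numA x n)
      (t * denB x (n + 1) + s * denB x n) (numA x (n + 1)) (-denB x (n + 1)) (-numA x n) (denB x n)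
      a1 (by rwa [norm_neg]) (by rwa [norm_neg]) b0
    have h2 : hn (D * s) (D * t) = hn s t := by rw [hn_smul, hdet, one_mul]
    rw [← h2]
    convert h1 using 2
    · rw [hD]; ring
    · rw [hD]; ring
  have h1 := key a b
  have h2 := key c d
  have p1 := hn_pos _ _ (vec_ne x hx0 n a b hab)
  have p2 := hn_pos _ _ (vec_ne x hx0 n c d hcd)
  have p3 := hn_pos a b hab
  have p4 := hn_pos c d hcd
  rw [← mul_div_assoc, div_le_div_iff₀ (by positivity) (by positivity)]
  have h3 := mul_le_mul h1 h2 p4.le (by positivity)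
  have h4 : (0 : ℝ) ≤ 2 * ‖a * d - b * c‖ := by positivity
  calc 2 * ‖a * d - b * c‖ * (hn a b * hn c d)
      ≤ 2 * ‖a * d - b * c‖ * ((4 * C * hn (b * numA x (n + 1) + a * numA x n) (b * denB x (n + 1) + a * denB x n))
        * (4 * C * hn (d * numA x (n + 1) + c * numA x n) (d * denB x (n + 1) + c * denB x n))) :=
        mul_le_mul_of_nonneg_left h3 h4
    _ = _ := by ring

/-- If the continued fraction has infinitely many bounded pairs of consecutive convergents, then it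
does not converge, not even in the general sense. -/
theorem not_gen (x : ℂ) (hx : ‖x‖ = 1) (C : ℝ) (hC : 1 ≤ C)
    (H : ∀ N : ℕ, ∃ n ≥ N, ‖numA x n‖ ≤ C ∧ ‖numA x (n + 1)‖ ≤ C ∧ ‖denB x n‖ ≤ C ∧
      ‖denB x (n + 1)‖ ≤ C) : ¬ GenConverges x := by
  rintro ⟨L, v, w, hv, hw, c, hc, hcd⟩
  have h1 := chord_small _ _ L hv hw (c / (16 * C ^ 2)) (by positivity)
  have h2 := (h1.and hcd)
  rw [eventually_atTop] at h2
  obtain ⟨N, hN⟩ := h2
  obtain ⟨n, hn, a0, a1, b0, b1⟩ := H N
  obtain ⟨h3, h4⟩ := hN n hn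
  have h5 := chord_mod_ge x hx C hC n a0 a1 b0 b1 (v n) (w n)
  have h6 : c / (16 * C ^ 2) ≤ chord (v n) (w n) / (16 * C ^ 2) := by gcongr
  linarith

end Pool.Agent.Y906.RG
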