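import Mathlib
import Pool.Agent.Y906.RG.Defs

/-!
# General convergence at the roots of unity

The period matrix has trace `1` and determinant `-1`.
-/

set_option autoImplicit false

namespace Pool.Agent.Y906.RG

open Filter Topology Polynomial Matrix

abbrev M2 (R : Type) := Matrix (Fin 2) (Fin 2) R

noncomputable def PX (x : ℂ) (k : ℕ) : M2 ℂ[X] := !![1, 1; C (x ^ k) * X, 0]

noncomputable def QX (x : ℂ) : ℕ → M2 ℂ[X]
  | 0 => 1
  | (n + 1) => QX x n * PX x n

noncomputable def RX (x : ℂ) : ℕ → M2 ℂ[X]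
  | 0 => 1
  | (n + 1) => RX x n * PX x (n + 1)

theorem QX_succ (x : ℂ) (n : ℕ) : QX x (n + 1) = QX x n * PX x n := rfl

theorem RX_succ (x : ℂ) (n : ℕ) : RX x (n + 1) = RX x n * PX x (n + 1) := rfl

theorem QX_eq (x : ℂ) (n : ℕ) : QX x (n + 1) = PX x 0 * RX x n := by
  induction n with
  | zero => simp [QX, RX]
  | succ n ih => rw [QX_succ, ih, RX_succ, Matrix.mul_assoc]

theorem map_PX (x : ℂ) (k : ℕ) (f : ℂ[X] →+* ℂ[X]) (hf : f X = C x * X) (hc : ∀ a, f (C a) = C a) :
    f.mapMatrix (PX x k) = PX x (k + 1) := by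
  unfold PX
  ext1 i j
  fin_cases i <;> fin_cases j
  · simp
  · simp
  · simp [hf, hc, pow_succ]
    ring
  · simp

theorem map_QX (x : ℂ) (n : ℕ) (f : ℂ[X] →+* ℂ[X]) (hf : f X = C x * X) (hc : ∀ a, f (C a) = C a) :
    f.mapMatrix (QX x n) = RX x n := by
  induction n with
  | zero => simp [QX, RX]
  | succ n ih => rw [QX_succ, map_mul, ih, map_PX x n f hf hc, RX_succ]

theorem trace_two {R : Type} [CommRing R] (A : M2 R) : A.trace = A 0 0 + A 1 1 := by
  simp [Matrix.trace, Matrix.diag, Fin.sum_univ_two]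

theorem trace_comp (x : ℂ) (m : ℕ) (hx : x ^ (m + 1) = 1) :
    (QX x (m + 1)).trace.comp (C x * X) = (QX x (m + 1)).trace := by
  have h1 := map_QX x (m + 1) (compRingHom (C x * X)) (by simp) (by simp)
  have h2 : (RX x (m + 1)).trace = (QX x (m + 1)).trace := by
    rw [RX_succ, QX_eq]
    have : PX x (m + 1) = PX x 0 := by unfold PX; rw [hx, pow_zero]
    rw [this, Matrix.trace_mul_comm]
  have h3 : (QX x (m + 1)).trace.comp (C x * X)
      = ((compRingHom (C x * X)).mapMatrix (QX x (m + 1))).trace := by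
    rw [trace_two, trace_two, add_comp]
    rfl
  rw [h3, h1, h2]

theorem deg_bounds (x : ℂ) (n : ℕ) :
    2 * (QX x (n + 1) 0 0).natDegree ≤ n + 1 ∧ 2 * (QX x (n + 1) 0 1).natDegree ≤ n ∧
    2 * (QX x (n + 1) 1 0).natDegree ≤ n + 2 ∧ 2 * (QX x (n + 1) 1 1).natDegree ≤ n + 1 := by
  induction n with
  | zero =>
    have e : QX x (0 + 1) = PX x 0 := by simp [QX]
    rw [e]
    unfold PX
    simp
  | succ n ih =>
    obtain ⟨h00, h01, h10, h11⟩ := ih
    have hP : ∀ p : ℂ[X], (p * (C (x ^ (n + 1)) * X)).natDegree ≤ p.natDegree + 1 := by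
      intro p
      have h1 := natDegree_mul_le (p := p) (q := C (x ^ (n + 1)) * X)
      have h2 : (C (x ^ (n + 1)) * X : ℂ[X]).natDegree ≤ 1 := (natDegree_C_mul_le _ _).trans natDegree_X_le
      omega
    have q00 : QX x (n + 1 + 1) 0 0 = QX x (n + 1) 0 0 + QX x (n + 1) 0 1 * (C (x ^ (n + 1)) * X) := by
      rw [QX_succ, Matrix.mul_apply, Fin.sum_univ_two]; simp [PX]
    have q01 : QX x (n + 1 + 1) 0 1 = QX x (n + 1) 0 0 := by
      rw [QX_succ, Matrix.mul_apply, Fin.sum_univ_two]; simp [PX]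
    have q10 : QX x (n + 1 + 1) 1 0 = QX x (n + 1) 1 0 + QX x (n + 1) 1 1 * (C (x ^ (n + 1)) * X) := by
      rw [QX_succ, Matrix.mul_apply, Fin.sum_univ_two]; simp [PX]
    have q11 : QX x (n + 1 + 1) 1 1 = QX x (n + 1) 1 0 := by
      rw [QX_succ, Matrix.mul_apply, Fin.sum_univ_two]; simp [PX]
    rw [q00, q01, q10, q11]
    have a1 := natDegree_add_le (QX x (n + 1) 0 0) (QX x (n + 1) 0 1 * (C (x ^ (n + 1)) * X))
    have a2 := natDegree_add_le (QX x (n + 1) 1 0) (QX x (n + 1) 1 1 * (C (x ^ (n + 1)) * X))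
    have b1 := hP (QX x (n + 1) 0 1)
    have b2 := hP (QX x (n + 1) 1 1)
    refine ⟨?_, ?_, ?_, ?_⟩
    · rcases max_cases (QX x (n + 1) 0 0).natDegree (QX x (n + 1) 0 1 * (C (x ^ (n + 1)) * X)).natDegree with h | h <;> omega
    · omega
    · rcases max_cases (QX x (n + 1) 1 0).natDegree (QX x (n + 1) 1 1 * (C (x ^ (n + 1)) * X)).natDegree with h | h <;> omega
    · omega

theorem eval_zero_QX (x : ℂ) (n : ℕ) :
    (QX x (n + 1) 0 0).eval 0 = 1 ∧ (QX x (n + 1) 0 1).eval 0 = 1 ∧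
    (QX x (n + 1) 1 0).eval 0 = 0 ∧ (QX x (n + 1) 1 1).eval 0 = 0 := by
  induction n with
  | zero =>
    have e : QX x (0 + 1) = PX x 0 := by simp [QX]
    rw [e]
    unfold PX
    simp
  | succ n ih =>
    obtain ⟨h00, h01, h10, h11⟩ := ih
    rw [QX_succ]
    simp only [Matrix.mul_apply, Fin.sum_univ_two]
    simp [PX, h00, h01, h10, h11]

/-- The trace of the period is the constant polynomial one. -/
theorem trace_QX (x : ℂ) (m : ℕ) (hx : IsPrimitiveRoot x (m + 1)) : (QX x (m + 1)).trace = 1 := by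
  have hcomp := trace_comp x m hx.pow_eq_one
  have hdeg : 2 * (QX x (m + 1)).trace.natDegree ≤ m + 1 := by
    obtain ⟨h00, _, _, h11⟩ := deg_bounds x m
    have h1 : (QX x (m + 1)).trace = QX x (m + 1) 0 0 + QX x (m + 1) 1 1 := by
      simp [Matrix.trace, Matrix.diag, Fin.sum_univ_two]
    rw [h1]
    have a1 := natDegree_add_le (QX x (m + 1) 0 0) (QX x (m + 1) 1 1)
    rcases max_cases (QX x (m + 1) 0 0).natDegree (QX x (m + 1) 1 1).natDegree with h | h <;> omega
  have h0 : (QX x (m + 1)).trace.eval 0 = 1 := by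
    obtain ⟨h00, _, _, h11⟩ := eval_zero_QX x m
    simp [Matrix.trace, Matrix.diag, Fin.sum_univ_two, h00, h11]
  ext i
  rcases Nat.eq_zero_or_pos i with rfl | hi
  · rw [coeff_zero_eq_eval_zero, h0]; simp
  · have hone : (1 : ℂ[X]).coeff i = 0 := by
      rw [coeff_one, if_neg hi.ne']
    rw [hone]
    by_cases him : (QX x (m + 1)).trace.natDegree < i
    · exact coeff_eq_zero_of_natDegree_lt him
    · push Not at him
      have hilt : i < m + 1 := by omega
      have h1 : x ^ i ≠ 1 := hx.pow_ne_one_of_pos_of_lt hi.ne' hilt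
      have h2 := congrArg (fun p => p.coeff i) hcomp
      simp only [comp_C_mul_X_coeff] at h2
      have h3 : (QX x (m + 1)).trace.coeff i * (x ^ i - 1) = 0 := by linear_combination h2
      exact (mul_eq_zero.1 h3).resolve_right (sub_ne_zero.2 h1)

/-! ### Evaluation at one -/

noncomputable def PP (x : ℂ) (k : ℕ) : M2 ℂ := !![1, 1; x ^ k, 0]

noncomputable def QQ (x : ℂ) : ℕ → M2 ℂ
  | 0 => 1
  | (n + 1) => QQ x n * PP x n

theorem QQ_succ (x : ℂ) (n : ℕ) : QQ x (n + 1) = QQ x n * PP x n := rfl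

theorem eval_PX (x : ℂ) (k : ℕ) : (evalRingHom (1 : ℂ)).mapMatrix (PX x k) = PP x k := by
  unfold PX PP
  ext i j
  fin_cases i <;> fin_cases j <;> simp

theorem eval_QX (x : ℂ) (n : ℕ) : (evalRingHom (1 : ℂ)).mapMatrix (QX x n) = QQ x n := by
  induction n with
  | zero => simp [QX, QQ]
  | succ n ih => rw [QX_succ, map_mul, ih, eval_PX, QQ_succ]

theorem trace_QQ (x : ℂ) (m : ℕ) (hx : IsPrimitiveRoot x (m + 1)) : (QQ x (m + 1)).trace = 1 := by
  have h := congrArg (fun p : ℂ[X] => p.eval 1) (trace_QX x m hx)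
  simp only [eval_one] at h
  rw [trace_two, eval_add] at h
  rw [← eval_QX, trace_two]
  exact h

theorem det_PP (x : ℂ) (k : ℕ) : (PP x k).det = -x ^ k := by
  unfold PP
  rw [Matrix.det_fin_two_of]
  ring

theorem det_QQ (x : ℂ) (n : ℕ) : (QQ x n).det = ∏ k ∈ Finset.range n, (-x ^ k) := by
  induction n with
  | zero => simp [QQ]
  | succ n ih => rw [QQ_succ, Matrix.det_mul, ih, det_PP, Finset.prod_range_succ]

theorem det_period (x : ℂ) (m : ℕ) (hx : IsPrimitiveRoot x (m + 1)) : (QQ x (m + 1)).det = -1 := by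
  rw [det_QQ]
  have h1 : ∏ k ∈ Finset.range (m + 1), (-x ^ k) = (-1) ^ (m + 1) * x ^ (∑ k ∈ Finset.range (m + 1), k) := by
    rw [← Finset.prod_pow_eq_pow_sum, ← Finset.card_range (m + 1), ← Finset.prod_const, Finset.card_range,
      ← Finset.prod_mul_distrib]
    apply Finset.prod_congr rfl
    intro k _
    ring
  have h2 := Finset.sum_range_id_mul_two (m + 1)
  rw [Nat.add_sub_cancel] at h2
  rw [h1]
  rcases Nat.even_or_odd' m with ⟨h, hh | hh⟩
  · have h3 : ∑ k ∈ Finset.range (m + 1), k = (m + 1) * h := by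
      rw [hh] at h2 ⊢
      have : (∑ i ∈ Finset.range (2 * h + 1), i) * 2 = ((2 * h + 1) * h) * 2 := by rw [h2]; ring
      exact Nat.eq_of_mul_eq_mul_right (by norm_num) this
    rw [h3, pow_mul, hx.pow_eq_one, one_pow, mul_one, hh]
    exact Odd.neg_one_pow ⟨h, rfl⟩
  · have h3 : ∑ k ∈ Finset.range (m + 1), k = (h + 1) * m := by
      rw [hh] at h2 ⊢
      have : (∑ i ∈ Finset.range (2 * h + 1 + 1), i) * 2 = ((h + 1) * (2 * h + 1)) * 2 := by rw [h2]; ring
      exact Nat.eq_of_mul_eq_mul_right (by norm_num) this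
    have h4 : x ^ (h + 1) = -1 := by
      have h5 : (x ^ (h + 1)) ^ 2 = 1 := by
        rw [← pow_mul]
        have : (h + 1) * 2 = m + 1 := by omega
        rw [this, hx.pow_eq_one]
      have h6 : (x ^ (h + 1) - 1) * (x ^ (h + 1) + 1) = 0 := by linear_combination h5
      rcases mul_eq_zero.1 h6 with h6 | h6
      · exfalso
        exact hx.pow_ne_one_of_pos_of_lt (by omega) (by omega) (sub_eq_zero.1 h6)
      · linear_combination h6
    rw [h3, pow_mul, h4, hh]
    have : Even (2 * h + 1 + 1) := ⟨h + 1, by ring⟩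
    rw [this.neg_one_pow, one_mul]
    exact Odd.neg_one_pow ⟨h, rfl⟩

end Pool.Agent.Y906.RG
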