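import Mathlib
import Pool.Agent.Y906.RG.Root

/-!
# General convergence at the roots of unity (end)
-/

set_option autoImplicit false

namespace Pool.Agent.Y906.RG

open Filter Topology Matrix

theorem QQ_AB (x : ℂ) (n : ℕ) :
    QQ x (n + 2) = !![numA x (n + 1), numA x n; denB x (n + 1), denB x n] := by
  induction n with
  | zero =>
    ext i j
    fin_cases i <;> fin_cases j <;> simp [QQ, PP, numA, denB]
  | succ n ih =>
    rw [QQ_succ, ih, PP]
    ext i j
    fin_cases i <;> fin_cases j <;> simp [numA_two, denB_two, mul_comm]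

theorem PP_period (x : ℂ) (m k : ℕ) (hx : x ^ m = 1) : PP x (m + k) = PP x k := by
  unfold PP
  rw [pow_add, hx, one_mul]

theorem QQ_add (x : ℂ) (m k : ℕ) (hx : x ^ m = 1) : QQ x (m + k) = QQ x m * QQ x k := by
  induction k with
  | zero => simp [QQ]
  | succ k ih => rw [← Nat.add_assoc, QQ_succ, ih, PP_period x m k hx, QQ_succ, Matrix.mul_assoc]

theorem QQ_mul_add (x : ℂ) (m k j : ℕ) (hx : x ^ m = 1) : QQ x (m * j + k) = QQ x m ^ j * QQ x k := by
  induction j with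
  | zero => simp
  | succ j ih =>
    have : m * (j + 1) + k = m + (m * j + k) := by ring
    rw [this, QQ_add x m _ hx, ih, pow_succ', Matrix.mul_assoc]

theorem mulVec0 (A : M2 ℂ) (p : Fin 2 → ℂ) : (A *ᵥ p) 0 = A 0 0 * p 0 + A 0 1 * p 1 := by
  simp [Matrix.mulVec, dotProduct, Fin.sum_univ_two]

theorem mulVec1 (A : M2 ℂ) (p : Fin 2 → ℂ) : (A *ᵥ p) 1 = A 1 0 * p 0 + A 1 1 * p 1 := by
  simp [Matrix.mulVec, dotProduct, Fin.sum_univ_two]

theorem wedge (A : M2 ℂ) (p q : Fin 2 → ℂ) :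
    (A *ᵥ p) 0 * (A *ᵥ q) 1 - (A *ᵥ p) 1 * (A *ᵥ q) 0 = A.det * (p 0 * q 1 - p 1 * q 0) := by
  rw [mulVec0, mulVec1, mulVec0, mulVec1, Matrix.det_fin_two]; ring

theorem sq_eq (T : M2 ℂ) (h1 : T.trace = 1) (h2 : T.det = -1) : T * T = T + 1 := by
  rw [trace_two] at h1
  rw [Matrix.det_fin_two] at h2
  ext i j
  fin_cases i <;> fin_cases j <;> simp [Matrix.mul_apply, Fin.sum_univ_two]
  · linear_combination T 0 0 * h1 - h2
  · linear_combination T 0 1 * h1
  · linear_combination T 1 0 * h1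
  · linear_combination T 1 1 * h1 - h2

theorem pow_eq (T : M2 ℂ) (h : T * T = T + 1) (j : ℕ) :
    T ^ (j + 1) = (Nat.fib (j + 1) : ℂ) • T + (Nat.fib j : ℂ) • (1 : M2 ℂ) := by
  induction j with
  | zero => simp
  | succ j ih =>
    rw [pow_succ, ih, Matrix.add_mul, Matrix.smul_mul, Matrix.smul_mul, h, Matrix.one_mul]
    have hf := Nat.fib_add_two (n := j)
    have : ((Nat.fib (j + 1 + 1) : ℕ) : ℂ) = (Nat.fib j : ℂ) + (Nat.fib (j + 1) : ℂ) := by
      rw [show j + 1 + 1 = j + 2 by ring, hf]; push_cast; ring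
    rw [this, smul_add, add_smul]
    abel

theorem chord_pos (a b c d : ℂ) (h : a * d - b * c ≠ 0) : 0 < chord (ratio a b) (ratio c d) := by
  have h1 : a ≠ 0 ∨ b ≠ 0 := by
    by_contra hc
    push Not at hc
    apply h
    rw [hc.1, hc.2]; ring
  have h2 : c ≠ 0 ∨ d ≠ 0 := by
    by_contra hc
    push Not at hc
    apply h
    rw [hc.1, hc.2]; ring
  rw [chord_ratio a b c d h1 h2]
  have := hn_pos a b h1
  have := hn_pos c d h2
  have := norm_pos_iff.2 h
  positivity

theorem det_QQ_ne (x : ℂ) (hx : x ≠ 0) (n : ℕ) : (QQ x n).det ≠ 0 := by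
  rw [det_QQ]
  exact Finset.prod_ne_zero_iff.2 fun k _ => neg_ne_zero.2 (pow_ne_zero _ hx)

/-- the test points -/
noncomputable def VV (x : ℂ) (p : Fin 2 → ℂ) (r : ℕ) : OnePoint ℂ :=
  ratio (((QQ x r).adjugate *ᵥ p) 1) (((QQ x r).adjugate *ᵥ p) 0)

theorem mod_VV (x : ℂ) (hx0 : x ≠ 0) (m : ℕ) (hx : x ^ m = 1) (n : ℕ) (p q : Fin 2 → ℂ)
    (hpq : p 0 * q 1 - p 1 * q 0 ≠ 0) :
    modApprox x n (VV x p ((n + 2) % m))
      = ratio ((QQ x m ^ ((n + 2) / m) *ᵥ p) 0) ((QQ x m ^ ((n + 2) / m) *ᵥ p) 1) := by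
  set r := (n + 2) % m with hr
  set j := (n + 2) / m with hj
  have hn : n + 2 = m * j + r := by rw [hj, hr, Nat.div_add_mod]
  have hG : QQ x (n + 2) = QQ x m ^ j * QQ x r := by rw [hn, QQ_mul_add x m r j hx]
  have hw := wedge ((QQ x r).adjugate) p q
  have hdetadj : (QQ x r).adjugate.det ≠ 0 := by
    rw [Matrix.det_adjugate]
    simp
    exact det_QQ_ne x hx0 r
  have hne : ((QQ x r).adjugate *ᵥ p) 1 ≠ 0 ∨ ((QQ x r).adjugate *ᵥ p) 0 ≠ 0 := by
    by_contra hc
    push Not at hc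
    rw [hc.1, hc.2, zero_mul, zero_mul, sub_zero] at hw
    exact (mul_ne_zero hdetadj hpq) hw.symm
  unfold VV
  rw [modApprox_ratio x n _ _ hne]
  have hvec : QQ x (n + 2) *ᵥ ((QQ x r).adjugate *ᵥ p) = (QQ x r).det • (QQ x m ^ j *ᵥ p) := by
    rw [hG, Matrix.mulVec_mulVec, Matrix.mul_assoc, Matrix.mul_adjugate, Matrix.mul_smul, Matrix.mul_one,
      Matrix.smul_mulVec]
  have h0 := congrFun hvec 0
  have h1 := congrFun hvec 1
  rw [QQ_AB, mulVec0] at h0
  rw [QQ_AB, mulVec1] at h1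
  simp only [Matrix.of_apply, Matrix.cons_val', Matrix.cons_val_zero, Matrix.cons_val_one,
    Matrix.cons_val_fin_one, Pi.smul_apply, smul_eq_mul] at h0 h1
  rw [← ratio_smul (QQ x r).det ((QQ x m ^ j *ᵥ p) 0) ((QQ x m ^ j *ᵥ p) 1) (det_QQ_ne x hx0 r),
    ← h0, ← h1]
  congr 1 <;> ring

theorem gen_of_primitive (x : ℂ) (m : ℕ) (hx : IsPrimitiveRoot x (m + 1)) : GenConverges x := by
  have hx1 := hx.pow_eq_one
  have hx0 : x ≠ 0 := by
    intro h; rw [h, zero_pow (by omega)] at hx1; exact zero_ne_one hx1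
  set T := QQ x (m + 1) with hT
  have htr : T.trace = 1 := trace_QQ x m hx
  have hdet : T.det = -1 := det_period x m hx
  have hTT := sq_eq T htr hdet
  set s : ℂ := ((-Real.goldenConj : ℝ) : ℂ) with hs
  have hs2 : s ^ 2 = 1 - s := by
    rw [hs]
    have := Real.goldenConj_sq
    have h2 : (-Real.goldenConj) ^ 2 = 1 - (-Real.goldenConj) := by
      rw [neg_sq, this]; ring
    exact_mod_cast congrArg (fun t : ℝ => (t : ℂ)) h2
  set N : M2 ℂ := T + s • (1 : M2 ℂ) with hN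
  have n00 : N 0 0 = T 0 0 + s := by simp [hN]
  have n01 : N 0 1 = T 0 1 := by simp [hN]
  have n10 : N 1 0 = T 1 0 := by simp [hN]
  have n11 : N 1 1 = T 1 1 + s := by simp [hN]
  have hdetN : N.det = 0 := by
    rw [Matrix.det_fin_two] at hdet ⊢
    rw [trace_two] at htr
    rw [n00, n01, n10, n11]
    linear_combination hdet + s * htr + hs2
  have htrN : N 0 0 + N 1 1 ≠ 0 := by
    rw [n00, n11]
    rw [trace_two] at htr
    have h3 : T 0 0 + s + (T 1 1 + s) = 1 + 2 * s := by linear_combination htr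
    rw [h3, hs]
    have h4 : (1 + 2 * ((-Real.goldenConj : ℝ) : ℂ)) = ((1 + 2 * (-Real.goldenConj) : ℝ) : ℂ) := by
      push_cast; ring
    rw [h4]
    have h5 := Real.goldenConj_neg
    have h6 : (1 + 2 * (-Real.goldenConj) : ℝ) ≠ 0 := by linarith
    exact_mod_cast h6
  -- choice of two vectors
  have hsel : ∃ p q : Fin 2 → ℂ, p 0 * q 1 - p 1 * q 0 ≠ 0 ∧
      ((N *ᵥ p) 0 ≠ 0 ∨ (N *ᵥ p) 1 ≠ 0) ∧ ((N *ᵥ q) 0 ≠ 0 ∨ (N *ᵥ q) 1 ≠ 0) := by
    by_cases hA : N 0 0 = 0 ∧ N 1 0 = 0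
    · refine ⟨![0, 1], ![1, 1], by simp, ?_, ?_⟩
      · right
        rw [mulVec1]
        simp only [Matrix.cons_val_zero, Matrix.cons_val_one, Matrix.cons_val_fin_one, mul_zero, mul_one, zero_add]
        intro h
        apply htrN
        rw [hA.1, h, add_zero]
      · right
        rw [mulVec1]
        simp only [Matrix.cons_val_zero, Matrix.cons_val_one, Matrix.cons_val_fin_one, mul_one]
        rw [hA.2, zero_add]
        intro h
        apply htrN
        rw [hA.1, h, add_zero]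
    · by_cases hB : N 0 1 = 0 ∧ N 1 1 = 0
      · refine ⟨![1, 0], ![1, 1], by simp, ?_, ?_⟩
        · left
          rw [mulVec0]
          simp only [Matrix.cons_val_zero, Matrix.cons_val_one, Matrix.cons_val_fin_one, mul_zero, mul_one, add_zero]
          intro h
          apply htrN
          rw [hB.2, h, add_zero]
        · left
          rw [mulVec0]
          simp only [Matrix.cons_val_zero, Matrix.cons_val_one, Matrix.cons_val_fin_one, mul_one]
          rw [hB.1, add_zero]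
          intro h
          apply htrN
          rw [hB.2, h, add_zero]
      · refine ⟨![1, 0], ![0, 1], by simp, ?_, ?_⟩
        · rw [mulVec0, mulVec1]
          simp only [Matrix.cons_val_zero, Matrix.cons_val_one, Matrix.cons_val_fin_one, mul_zero, mul_one, add_zero]
          by_contra h
          push Not at h
          exact hA h
        · rw [mulVec0, mulVec1]
          simp only [Matrix.cons_val_zero, Matrix.cons_val_one, Matrix.cons_val_fin_one, mul_zero, mul_one, zero_add]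
          by_contra h
          push Not at h
          exact hB h
  obtain ⟨p, q, hpq, hp, hq⟩ := hsel
  have hqp : q 0 * p 1 - q 1 * p 0 ≠ 0 := by
    intro h; apply hpq; linear_combination -h
  -- the limit
  have hlim : ∀ u v : Fin 2 → ℂ, u 0 * v 1 - u 1 * v 0 ≠ 0 → ((N *ᵥ u) 0 ≠ 0 ∨ (N *ᵥ u) 1 ≠ 0) →
      Tendsto (fun n => modApprox x n (VV x u ((n + 2) % (m + 1)))) atTop
        (𝓝 (ratio ((N *ᵥ u) 0) ((N *ᵥ u) 1))) := by
    intro u v huv hu
    have hfib := tendsto_fib_div_fib_succ_atTop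
    have hfibC : Tendsto (fun j : ℕ => ((Nat.fib j / Nat.fib (j + 1) : ℝ) : ℂ)) atTop (𝓝 s) :=
      (Complex.continuous_ofReal.tendsto _).comp hfib
    have hT0 : Tendsto (fun j : ℕ => (T *ᵥ u) 0 + ((Nat.fib j / Nat.fib (j + 1) : ℝ) : ℂ) * u 0) atTop
        (𝓝 ((N *ᵥ u) 0)) := by
      have : (N *ᵥ u) 0 = (T *ᵥ u) 0 + s * u 0 := by
        rw [mulVec0, mulVec0, n00, n01]; ring
      rw [this]
      exact tendsto_const_nhds.add (hfibC.mul_const _)
    have hT1 : Tendsto (fun j : ℕ => (T *ᵥ u) 1 + ((Nat.fib j / Nat.fib (j + 1) : ℝ) : ℂ) * u 1) atTop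
        (𝓝 ((N *ᵥ u) 1)) := by
      have : (N *ᵥ u) 1 = (T *ᵥ u) 1 + s * u 1 := by
        rw [mulVec1, mulVec1, n10, n11]; ring
      rw [this]
      exact tendsto_const_nhds.add (hfibC.mul_const _)
    have hR := tendsto_ratio _ _ _ _ hu hT0 hT1
    have hR2 : Tendsto (fun j : ℕ => ratio ((T ^ (j + 1) *ᵥ u) 0) ((T ^ (j + 1) *ᵥ u) 1)) atTop
        (𝓝 (ratio ((N *ᵥ u) 0) ((N *ᵥ u) 1))) := by
      refine hR.congr ?_
      intro j
      have hf0 : ((Nat.fib (j + 1) : ℕ) : ℂ) ≠ 0 := by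
        exact_mod_cast (Nat.fib_pos.2 (Nat.succ_pos j)).ne'
      rw [← ratio_smul ((Nat.fib (j + 1) : ℕ) : ℂ) _ _ hf0, pow_eq T hTT j, Matrix.add_mulVec,
        Matrix.smul_mulVec, Matrix.smul_mulVec, Matrix.one_mulVec]
      simp only [Pi.add_apply, Pi.smul_apply, smul_eq_mul]
      congr 1
      · push_cast
        field_simp
      · push_cast
        field_simp
    have hj : Tendsto (fun n : ℕ => (n + 2) / (m + 1) - 1) atTop atTop := by
      rw [tendsto_atTop_atTop]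
      intro b
      refine ⟨(m + 1) * (b + 1), fun n hn => ?_⟩
      have : b + 1 ≤ (n + 2) / (m + 1) := by
        rw [Nat.le_div_iff_mul_le (by omega)]
        calc (b + 1) * (m + 1) = (m + 1) * (b + 1) := by ring
          _ ≤ n := hn
          _ ≤ n + 2 := by omega
      omega
    have hR3 := hR2.comp hj
    refine hR3.congr' ?_
    filter_upwards [eventually_ge_atTop (m + 1)] with n hn
    have h1 : 1 ≤ (n + 2) / (m + 1) := by
      rw [Nat.le_div_iff_mul_le (by omega)]; omega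
    have h2 : (n + 2) / (m + 1) - 1 + 1 = (n + 2) / (m + 1) := by omega
    rw [mod_VV x hx0 (m + 1) hx1 n u v huv]
    show ratio ((T ^ ((n + 2) / (m + 1) - 1 + 1) *ᵥ u) 0) ((T ^ ((n + 2) / (m + 1) - 1 + 1) *ᵥ u) 1) = _
    rw [h2]
  refine ⟨ratio ((N *ᵥ p) 0) ((N *ᵥ p) 1), fun n => VV x p ((n + 2) % (m + 1)),
    fun n => VV x q ((n + 2) % (m + 1)), hlim p q hpq hp, ?_, ?_⟩
  · have h1 : ratio ((N *ᵥ p) 0) ((N *ᵥ p) 1) = ratio ((N *ᵥ q) 0) ((N *ᵥ q) 1) := by
      apply ratio_eq_of_det _ _ _ _ hp hq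
      rw [wedge, hdetN, zero_mul]
    rw [h1]
    exact hlim q p hqp hq
  · obtain ⟨r0, hr0, hmin⟩ := Finset.exists_min_image (Finset.range (m + 1))
      (fun r => chord (VV x p r) (VV x q r)) ⟨0, by simp⟩
    refine ⟨chord (VV x p r0) (VV x q r0), ?_, Eventually.of_forall fun n => ?_⟩
    · unfold VV
      apply chord_pos
      have hw := wedge ((QQ x r0).adjugate) p q
      have hdetadj : (QQ x r0).adjugate.det ≠ 0 := by
        rw [Matrix.det_adjugate]
        simp
        exact det_QQ_ne x hx0 r0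
      intro h
      apply mul_ne_zero hdetadj hpq
      rw [← hw]
      linear_combination -h
    · exact hmin _ (Finset.mem_range.2 (Nat.mod_lt _ (by omega)))

theorem gen_of_root (x : ℂ) (n : ℕ) (hn : 0 < n) (hx : x ^ n = 1) : GenConverges x := by
  have h1 : 0 < orderOf x := (isOfFinOrder_iff_pow_eq_one.2 ⟨n, hn, hx⟩).orderOf_pos
  have h2 := IsPrimitiveRoot.orderOf x
  obtain ⟨m, hm⟩ : ∃ m, orderOf x = m + 1 := ⟨orderOf x - 1, by omega⟩
  rw [hm] at h2
  exact gen_of_primitive x m h2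

end Pool.Agent.Y906.RG
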