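import Mathlib
import Pool.Agent.Y906.RG.Loxo
import Pool.Agent.Helper74.RR.R14

/-!
# General divergence off the roots of unity
-/

set_option autoImplicit false

namespace Pool.Agent.Y906.RG

open Filter Topology Pool.Agent.Helper74.RR

theorem numA_eq (t : ℝ) (n : ℕ) : numA (e t) n = seqA t (n + 1) := by
  induction n using Nat.strong_induction_on with
  | _ n ih =>
    match n, ih with
    | 0, _ => rfl
    | 1, _ =>
      show 1 + e t = seqA t (0 + 1) + e (t * ((0 : ℕ) + 1)) * seqA t 0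
      simp [seqA]
    | (m + 2), ih =>
      show numA (e t) (m + 1) + e t ^ (m + 2) * numA (e t) m
        = seqA t (m + 1 + 1) + e (t * ((m + 1 : ℕ) + 1)) * seqA t (m + 1)
      rw [ih (m + 1) (by omega), ih m (by omega), e_pow]
      congr 2
      congr 1
      push_cast
      ring

theorem denB_eq (t : ℝ) (n : ℕ) : denB (e t) n = seqB t (n + 1) := by
  induction n using Nat.strong_induction_on with
  | _ n ih =>
    match n, ih with
    | 0, _ => rfl
    | 1, _ =>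
      show (1 : ℂ) = seqB t (0 + 1) + e (t * ((0 : ℕ) + 1)) * seqB t 0
      simp [seqB]
    | (m + 2), ih =>
      show denB (e t) (m + 1) + e t ^ (m + 2) * denB (e t) m
        = seqB t (m + 1 + 1) + e (t * ((m + 1 : ℕ) + 1)) * seqB t (m + 1)
      rw [ih (m + 1) (by omega), ih m (by omega), e_pow]
      congr 2
      congr 1
      push_cast
      ring

theorem exists_e (x : ℂ) (hx : ‖x‖ = 1) : ∃ t : ℝ, x = e t := by
  refine ⟨Complex.arg x / (2 * Real.pi), ?_⟩
  have h := Complex.norm_mul_exp_arg_mul_I x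
  rw [hx] at h
  unfold e
  have h2 : (2 * Real.pi * ((Complex.arg x / (2 * Real.pi) : ℝ) : ℂ) * Complex.I) = Complex.arg x * Complex.I := by
    have : (Real.pi : ℂ) ≠ 0 := by exact_mod_cast Real.pi_ne_zero
    push_cast
    field_simp
  rw [h2]
  simpa using h.symm

/-- Helper74's theorem: infinitely many bounded pairs of convergents. -/
theorem bounded_pairs (x : ℂ) (hx : ‖x‖ = 1) (hroot : ∀ n : ℕ, 0 < n → x ^ n ≠ 1) :
    ∃ C : ℝ, 1 ≤ C ∧ ∀ N : ℕ, ∃ n ≥ N, ‖numA x n‖ ≤ C ∧ ‖numA x (n + 1)‖ ≤ C ∧ ‖denB x n‖ ≤ C ∧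
      ‖denB x (n + 1)‖ ≤ C := by
  obtain ⟨t, rfl⟩ := exists_e x hx
  have ht : Irrational t := by
    rintro ⟨r, hr⟩
    apply hroot r.den r.den_pos
    rw [e_pow, ← hr]
    have : (r.den : ℝ) * (r : ℝ) = (r.num : ℤ) := by
      have := Rat.den_mul_eq_num r
      exact_mod_cast this
    rw [this, e_int]
  obtain ⟨M, hM, hsel⟩ := select t ht
  obtain ⟨C, hC1, hC⟩ := seq_bound M hM
  refine ⟨C, hC1, fun N => ?_⟩
  obtain ⟨X, hXt, hXd⟩ := hsel (N + 1)
  obtain ⟨a0, a1, b0, b1⟩ := hC X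
  rw [hXt] at a0 a1 b0 b1
  have hd1 : X.d - 1 + 1 = X.d := by have := X.hd; omega
  refine ⟨X.d - 1, by omega, ?_, ?_, ?_, ?_⟩
  · rw [numA_eq, hd1]; exact a0
  · rw [numA_eq, hd1]; exact a1
  · rw [denB_eq, hd1]; exact b0
  · rw [denB_eq, hd1]; exact b1

theorem main (x : ℂ) (hx : ‖x‖ = 1) :
    (GenConverges x ↔ ∃ n : ℕ, 0 < n ∧ x ^ n = 1) ∧
    ((∀ n : ℕ, 0 < n → x ^ n ≠ 1) →
      ¬ Converges x ∧
      ∃ C : ℝ, 0 < C ∧ ∀ N : ℕ, ∃ n ≥ N, ∀ v w : OnePoint ℂ,
        chord v w ≤ C * chord (modApprox x n v) (modApprox x n w) ∧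
        chord (modApprox x n v) (modApprox x n w) ≤ C * chord v w) := by
  have hneg : (∀ n : ℕ, 0 < n → x ^ n ≠ 1) → ¬ GenConverges x := by
    intro h
    obtain ⟨C, hC, H⟩ := bounded_pairs x hx h
    exact not_gen x hx C hC H
  refine ⟨⟨?_, ?_⟩, ?_⟩
  · intro h
    by_contra hcon
    push Not at hcon
    exact hneg hcon h
  · rintro ⟨n, hn, h⟩
    exact gen_of_root x n hn h
  · intro h
    refine ⟨fun hc => hneg h (Converges.gen x hc), ?_⟩
    obtain ⟨C, hC, H⟩ := bounded_pairs x hx h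
    refine ⟨16 * C ^ 2, by positivity, fun N => ?_⟩
    obtain ⟨n, hn, a0, a1, b0, b1⟩ := H N
    refine ⟨n, hn, fun v w => ⟨?_, chord_mod_le x hx C hC n a0 a1 b0 b1 v w⟩⟩
    have h5 := chord_mod_ge x hx C hC n a0 a1 b0 b1 v w
    rw [div_le_iff₀ (by positivity)] at h5
    linarith

end Pool.Agent.Y906.RG
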